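import Pool.Agent.Helper82K9.TF.TF6
import Pool.Agent.Helper4.SP.FracHyp

/-!
# Chowla's bound in almost all classes, for the moduli with `{f(n)}` in a short interval

Nothing is used besides Mathlib in the statement.
-/

set_option autoImplicit false

namespace Pool.Agent.Results.MP_42948a_nt.FractionalPartModuli

open Finset

open Classical in
/-- The number of the `a` with `0 ≤ a < d` and `gcd(a, d) = 1` for which no prime `p ≤ x` is congruent to `a` modulo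
`d`; for `d ≥ 2` this is the number of the reduced classes with `p(d, a) > x`. -/
noncomputable def late (d : ℕ) (x : ℝ) : ℕ :=
  ((range d).filter (fun a => Nat.Coprime a d ∧ ∀ p : ℕ, p.Prime → (p : ℝ) ≤ x → ¬ p % d = a)).card

/-- `ψ(x; d, a) = ∑_{n ≤ x, n ≡ a mod d} Λ(n)` for `0 ≤ a < d` -/
noncomputable def psiAP (x : ℝ) (d a : ℕ) : ℝ :=
  ∑ n ∈ (Icc 1 ⌊x⌋₊).filter (fun n => n % d = a), ArithmeticFunction.vonMangoldt n

open Classical in
/-- The number of the `a` with `0 ≤ a < d` and `gcd(a, d) = 1` with `|ψ(x; d, a) - x / φ(d)| ≥ η x / φ(d)`. -/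
noncomputable def off (d : ℕ) (x η : ℝ) : ℕ :=
  ((range d).filter (fun a => Nat.Coprime a d ∧ η * (x / (Nat.totient d : ℝ)) ≤
    |psiAP x d a - x / (Nat.totient d : ℝ)|)).card

/-- For all real `x = lam φ(d) log d` with `d ≤ x ≤ d (log d) ^ A`: the least prime `p(d, a)` is larger than `x` for at
most `(1 + ε) φ(d) / (1 + lam)` of the reduced classes `a`, and for all `η > 0` at most `(1 + ε) φ(d) / (η² lam)` of the
reduced classes `a` have `|ψ(x; d, a) - x / φ(d)| ≥ η x / φ(d)`. -/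
def Good (ε : ℝ) (A d : ℕ) : Prop :=
  ∀ x : ℝ, (d : ℝ) ≤ x → x ≤ d * Real.log d ^ A →
    (late d x : ℝ) * (1 + x / (Nat.totient d * Real.log d)) ≤ (1 + ε) * Nat.totient d ∧
    ∀ η : ℝ, 0 < η → (off d x η : ℝ) * (η ^ 2 * (x / (Nat.totient d * Real.log d))) ≤ (1 + ε) * Nat.totient d

lemma good_iff (ε : ℝ) (A m : ℕ) : Good ε A m ↔ Pool.Agent.R501.LP.LpG ε A m := Iff.rfl

/-- The functions `f = f 0`: here `f m` is the `m`-th derivative of `f 0` on `[N, 2 N + 1]` for `0 ≤ m ≤ k + 2`; the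
number `N ^ (k + 1) |f ^ (k + 1) (t)|` is between `F / log ^ C N` and `F log ^ C N`, and the derivative of order `k + 2`
does not change its sign. -/
structure Phase (k C N : ℕ) (F : ℝ) (f : ℕ → ℝ → ℝ) : Prop where
  der : ∀ m ≤ k + 1, ∀ t ∈ Set.Icc (N : ℝ) (2 * N + 1), HasDerivAt (f m) (f (m + 1) t) t
  low : ∀ t ∈ Set.Icc (N : ℝ) (2 * N + 1), F ≤ (N : ℝ) ^ (k + 1) * |f (k + 1) t| * Real.log N ^ C
  high : ∀ t ∈ Set.Icc (N : ℝ) (2 * N + 1), (N : ℝ) ^ (k + 1) * |f (k + 1) t| ≤ F * Real.log N ^ C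
  mono : (∀ t ∈ Set.Icc (N : ℝ) (2 * N + 1), f (k + 2) t ≤ 0) ∨
    (∀ t ∈ Set.Icc (N : ℝ) (2 * N + 1), 0 ≤ f (k + 2) t)

/-- the modulus `c₀ + κ n` -/
def modulus (κ c₀ : ℤ) (n : ℕ) : ℤ := c₀ + κ * (n : ℤ)

open Classical in
/-- Let the integers `k ≥ 1`, `κ ≠ 0`, `B`, `C`, `A`, `U` and `0 < δ ≤ 1`, `0 < ε ≤ 1` be fixed. For all large `N`, for ALL
real `F` with `N ^ δ ≤ F ≤ N ^ (k + 1 - δ)`, for ALL smooth functions `f` as above, for ALL intervals modulo 1, with the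
left endpoint `c` and the length `lam ≥ N ^ (- δ / (k 2 ^ (k + 2)))`, for ALL sets `S` of integers `n` in `(N, 2 N]` with
`{f(n) - c} ≤ lam` and with at least `lam N / log ^ C N` elements, and for ALL integers `c₀` with `|c₀| ≤ B N`, all the
moduli `d = c₀ + κ n`, `n ∈ S`, which are positive, with at most `#S / log ^ U N` exceptions, have the following
property: for all real `x = lam' φ(d) log d` with `d ≤ x ≤ d (log d) ^ A` one has `p(d, a) ≤ x` for all reduced classes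
`a` modulo `d` with at most `(1 + ε) φ(d) / (1 + lam')` exceptions, and for all `η > 0` one has
`|ψ(x; d, a) - x / φ(d)| < η x / φ(d)` with at most `(1 + ε) φ(d) / (η² lam')` exceptions. -/
theorem result (k : ℕ) (hk : 1 ≤ k) (δ : ℝ) (hδ : 0 < δ) (hδ1 : δ ≤ 1) (κ : ℤ) (hκ : κ ≠ 0) (B C A U : ℕ) (ε : ℝ)
    (hε : 0 < ε) (hε1 : ε ≤ 1) :
    ∃ N₀ : ℕ, ∀ N : ℕ, N₀ ≤ N → ∀ F : ℝ, (N : ℝ) ^ δ ≤ F → F ≤ (N : ℝ) ^ ((k : ℝ) + 1 - δ) →
      ∀ f : ℕ → ℝ → ℝ, Phase k C N F f →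
      ∀ c lam : ℝ, (N : ℝ) ^ (-(δ / (k * 2 ^ (k + 2)))) ≤ lam →
      ∀ S : Finset ℕ, S ⊆ Ioc N (2 * N) → (∀ n ∈ S, Int.fract (f 0 (n : ℝ) - c) ≤ lam) →
      lam * N ≤ S.card * Real.log N ^ C → ∀ c₀ : ℤ, |c₀| ≤ B * (N : ℤ) →
      ((S.filter (fun n => 0 < modulus κ c₀ n ∧ ¬ Good ε A (modulus κ c₀ n).toNat)).card : ℝ) ≤
        S.card / Real.log N ^ U := by
  obtain ⟨p, B', C', k0, hB, hyp⟩ := Pool.Agent.Helper4.SP.fhyp k hk δ hδ hδ1 κ hκ B C
  obtain ⟨n1, h1⟩ := Pool.Agent.Helper82K9.TF.lp_familyB p B' C' A U ε hε hε1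
  refine ⟨k0 + n1, fun N hN F hF1 hF2 f hf c lam hlam S hS hSI hSc c₀ hc₀ => ?_⟩
  obtain ⟨hv, hE⟩ := hyp N (by omega) F hF1 hF2 f ⟨hf.der, hf.low, hf.high, hf.mono⟩ c lam hlam S hS hSI hSc c₀ hc₀
  have h2 := h1 N (by omega) {n // n ∈ S} (fun i => modulus κ c₀ i.1) hv hE
  rw [Fintype.card_coe] at h2
  refine le_trans ?_ h2
  apply Nat.cast_le.2
  have e : (S.filter (fun n => 0 < modulus κ c₀ n ∧ ¬ Good ε A (modulus κ c₀ n).toNat)) ⊆
      ((univ : Finset {n // n ∈ S}).filter (fun i => 0 < modulus κ c₀ i.1 ∧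
        ¬ Pool.Agent.R501.LP.LpG ε A (modulus κ c₀ i.1).toNat)).image (fun i => i.1) := by
    intro n hn
    rw [mem_filter] at hn
    rw [mem_image]
    exact ⟨⟨n, hn.1⟩, mem_filter.2 ⟨mem_univ _, hn.2⟩, rfl⟩
  refine (card_le_card e).trans (card_image_le.trans (le_of_eq ?_))
  congr

end Pool.Agent.Results.MP_42948a_nt.FractionalPartModuli
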