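import Pool.Agent.Helper82K9.TF.TF6
import Pool.Agent.Helper3K9.PS.Level

/-!
# Chowla's bound in almost all classes, for Piatetski-Shapiro moduli

Nothing is used besides Mathlib in the statement.
-/

set_option autoImplicit false

namespace Pool.Agent.Results.MP_42948a_nt.PiatetskiShapiroModuli

open Finset

open Classical in
/-- The number of the `a` with `0 ≤ a < d` and `gcd(a, d) = 1` for which no prime `p ≤ x` is congruent to `a` modulo
`d`; for `d ≥ 2` this is the number of the reduced classes with `p(d, a) > x`. -/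
noncomputable def late (d : ℕ) (x : ℝ) : ℕ :=
  ((range d).filter (fun a => Nat.Coprime a d ∧ ∀ p : ℕ, p.Prime → (p : ℝ) ≤ x → ¬ p % d = a)).card

/-- `ψ(x; d, a) = ∑_{n ≤ x, n ≡ a mod d} Λ(n)` for `0 ≤ a < d` -/
noncomputable def psiAP (x : ℝ) (d a : ℕ) : ℝ :=
  ∑ n ∈ (Icc 1 ⌊x⌋₊).filter (fun n => n % d = a), ArithmeticFunction.vonMangoldt n

open Classical in
/-- The number of the `a` with `0 ≤ a < d` and `gcd(a, d) = 1` with `|ψ(x; d, a) - x / φ(d)| ≥ η x / φ(d)`. -/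
noncomputable def off (d : ℕ) (x η : ℝ) : ℕ :=
  ((range d).filter (fun a => Nat.Coprime a d ∧ η * (x / (Nat.totient d : ℝ)) ≤
    |psiAP x d a - x / (Nat.totient d : ℝ)|)).card

/-- For all real `x = lam φ(d) log d` with `d ≤ x ≤ d (log d) ^ A`: the least prime `p(d, a)` is larger than `x` for at
most `(1 + ε) φ(d) / (1 + lam)` of the reduced classes `a`, and for all `η > 0` at most `(1 + ε) φ(d) / (η² lam)` of the
reduced classes `a` have `|ψ(x; d, a) - x / φ(d)| ≥ η x / φ(d)`. -/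
def Good (ε : ℝ) (A d : ℕ) : Prop :=
  ∀ x : ℝ, (d : ℝ) ≤ x → x ≤ d * Real.log d ^ A →
    (late d x : ℝ) * (1 + x / (Nat.totient d * Real.log d)) ≤ (1 + ε) * Nat.totient d ∧
    ∀ η : ℝ, 0 < η → (off d x η : ℝ) * (η ^ 2 * (x / (Nat.totient d * Real.log d))) ≤ (1 + ε) * Nat.totient d

lemma good_iff (ε : ℝ) (A m : ℕ) : Good ε A m ↔ Pool.Agent.R501.LP.LpG ε A m := Iff.rfl

/-- the modulus `c₀ + κ ⌊α n ^ c⌋` -/
noncomputable def modulus (α c : ℝ) (κ c₀ : ℤ) (n : ℕ) : ℤ := c₀ + κ * ⌊α * (n : ℝ) ^ c⌋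

open Classical in
/-- Let `α > 0`, a real number `c > 1` that is not an integer, an integer `κ ≠ 0` and `B`, `C`, `A`, `U` and `0 < ε ≤ 1` be
fixed. For all large `N`, with `M = ⌊N ^ (1 / c)⌋`, for ALL sets `S` of integers in `(M, 2 M]` with at least `M / log ^ C N`
elements, and for ALL integers `c₀` with `|c₀| ≤ B N`, all the moduli `d = c₀ + κ ⌊α n ^ c⌋`, `n ∈ S`, which are positive,
with at most `#S / log ^ U N` exceptions, have the following property: for all real `x = lam φ(d) log d` with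
`d ≤ x ≤ d (log d) ^ A` one has `p(d, a) ≤ x` for all reduced classes `a` modulo `d` with at most
`(1 + ε) φ(d) / (1 + lam)` exceptions, and for all `η > 0` one has `|ψ(x; d, a) - x / φ(d)| < η x / φ(d)` with at most
`(1 + ε) φ(d) / (η² lam)` exceptions. -/
theorem result (α c : ℝ) (hα : 0 < α) (hc : 1 < c) (hcn : ∀ m : ℕ, c ≠ m) (κ : ℤ) (hκ : κ ≠ 0) (B C A U : ℕ) (ε : ℝ)
    (hε : 0 < ε) (hε1 : ε ≤ 1) :
    ∃ N₀ : ℕ, ∀ N : ℕ, N₀ ≤ N → ∀ M : ℕ, M = ⌊(N : ℝ) ^ (1 / c)⌋₊ →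
      ∀ S : Finset ℕ, S ⊆ Ioc M (2 * M) → (M : ℝ) ≤ S.card * Real.log N ^ C → ∀ c₀ : ℤ, |c₀| ≤ B * (N : ℤ) →
      ((S.filter (fun n => 0 < modulus α c κ c₀ n ∧ ¬ Good ε A (modulus α c κ c₀ n).toNat)).card : ℝ) ≤
        S.card / Real.log N ^ U := by
  obtain ⟨p, B', C', k0, hB, hyp⟩ := Pool.Agent.Results.MP_188a10_nt.PiatetskiShapiro.hyp α c hα hc hcn κ hκ B C
  obtain ⟨n1, h1⟩ := Pool.Agent.Helper82K9.TF.lp_familyB p B' C' A U ε hε hε1
  refine ⟨k0 + n1, fun N hN M hM S hS hSc c₀ hc₀ => ?_⟩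
  obtain ⟨hv, hE⟩ := hyp N (by omega) M hM S hS hSc c₀ hc₀
  have h2 := h1 N (by omega) {n // n ∈ S} (fun i => modulus α c κ c₀ i.1) hv hE
  rw [Fintype.card_coe] at h2
  refine Pool.Agent.Results.MP_188a10_nt.PiatetskiShapiro.card_le_sub S _ _ ?_ _ h2
  intro i hi
  rw [good_iff] at hi
  exact hi

end Pool.Agent.Results.MP_42948a_nt.PiatetskiShapiroModuli
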