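import Pool.Agent.Helper82K9.TF.TF6
import Pool.Agent.Helper82K9.TF.TF10

/-!
# Chowla's bound in almost all classes for almost all values of a polynomial, uniformly in the polynomial

Nothing is used besides Mathlib in the statement.
-/

set_option autoImplicit false

namespace Pool.Agent.Results.MP_42948a_nt.UniformPolynomialModuli

open Finset

open Classical in
/-- The number of the `a` with `0 ≤ a < d` and `gcd(a, d) = 1` for which no prime `p ≤ x` is congruent to `a` modulo
`d`; for `d ≥ 2` this is the number of the reduced classes with `p(d, a) > x`. -/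
noncomputable def late (d : ℕ) (x : ℝ) : ℕ :=
  ((range d).filter (fun a => Nat.Coprime a d ∧ ∀ p : ℕ, p.Prime → (p : ℝ) ≤ x → ¬ p % d = a)).card

/-- `ψ(x; d, a) = ∑_{n ≤ x, n ≡ a mod d} Λ(n)` for `0 ≤ a < d` -/
noncomputable def psiAP (x : ℝ) (d a : ℕ) : ℝ :=
  ∑ n ∈ (Icc 1 ⌊x⌋₊).filter (fun n => n % d = a), ArithmeticFunction.vonMangoldt n

open Classical in
/-- The number of the `a` with `0 ≤ a < d` and `gcd(a, d) = 1` with `|ψ(x; d, a) - x / φ(d)| ≥ η x / φ(d)`. -/
noncomputable def off (d : ℕ) (x η : ℝ) : ℕ :=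
  ((range d).filter (fun a => Nat.Coprime a d ∧ η * (x / (Nat.totient d : ℝ)) ≤
    |psiAP x d a - x / (Nat.totient d : ℝ)|)).card

/-- For all real `x = lam φ(d) log d` with `d ≤ x ≤ d (log d) ^ A`: the least prime `p(d, a)` is larger than `x` for at
most `(1 + ε) φ(d) / (1 + lam)` of the reduced classes `a`, and for all `η > 0` at most `(1 + ε) φ(d) / (η² lam)` of the
reduced classes `a` have `|ψ(x; d, a) - x / φ(d)| ≥ η x / φ(d)`. -/
def Good (ε : ℝ) (A d : ℕ) : Prop :=
  ∀ x : ℝ, (d : ℝ) ≤ x → x ≤ d * Real.log d ^ A →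
    (late d x : ℝ) * (1 + x / (Nat.totient d * Real.log d)) ≤ (1 + ε) * Nat.totient d ∧
    ∀ η : ℝ, 0 < η → (off d x η : ℝ) * (η ^ 2 * (x / (Nat.totient d * Real.log d))) ≤ (1 + ε) * Nat.totient d

lemma good_iff (ε : ℝ) (A m : ℕ) : Good ε A m ↔ Pool.Agent.R501.LP.LpG ε A m := Iff.rfl

open Classical in
/-- The number of the integers `0 ≤ n < X` for which the value `d = f(n)` is positive and does not have the property
`Good`. -/
noncomputable def exceptions (ε : ℝ) (A X : ℕ) (f : Polynomial ℤ) : ℕ :=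
  ((range X).filter (fun n : ℕ => 0 < f.eval (n : ℤ) ∧ ¬ Good ε A (f.eval (n : ℤ)).toNat)).card

/-- Let `k ≥ 1`, `C`, `A`, `B`, `U` and `0 < ε ≤ 1` be fixed and let `X` be large. For EVERY polynomial `f` of degree `k`
with integer coefficients, with a leading coefficient of absolute value at most `log ^ C X` and with `|f(n)| ≤ B X ^ k` for
all integers `0 ≤ n < X`, the moduli `d = f(n)`, `0 ≤ n < X`, which are positive, with at most `X / log ^ U X` exceptions,
have the following property: for all real `x = lam φ(d) log d` with `d ≤ x ≤ d (log d) ^ A` one has `p(d, a) ≤ x` for all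
reduced classes `a` modulo `d` with at most `(1 + ε) φ(d) / (1 + lam)` exceptions, and for all `η > 0` one has
`|ψ(x; d, a) - x / φ(d)| < η x / φ(d)` with at most `(1 + ε) φ(d) / (η² lam)` exceptions. -/
theorem result (k C A B U : ℕ) (hk : 1 ≤ k) (ε : ℝ) (hε : 0 < ε) (hε1 : ε ≤ 1) :
    ∃ X₀ : ℕ, ∀ X : ℕ, X₀ ≤ X → ∀ f : Polynomial ℤ, f.natDegree = k → |(f.leadingCoeff : ℝ)| ≤ Real.log X ^ C →
      (∀ n < X, |f.eval (n : ℤ)| ≤ B * (X : ℤ) ^ k) →
      (exceptions ε A X f : ℝ) ≤ X / Real.log X ^ U := by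
  classical
  obtain ⟨h, K, hh, hK, hE⟩ := Pool.Agent.Helper82K9.TF.poly_energy1 k hk
  obtain ⟨n1, h1⟩ := Pool.Agent.Helper82K9.TF.lp_familyB h B (2 * C + 1) A U ε hε hε1
  obtain ⟨n2, h2⟩ := Pool.Agent.Helper82K9.TF.ev_pow_log (2 * K ^ 2) 1 le_rfl
  refine ⟨n1 + n2 + 2, fun X hX f hf hlc hv => ?_⟩
  obtain ⟨hL, hL1⟩ := h2 X (by omega)
  rw [pow_one] at hL
  have hX1 : 1 ≤ X := by omega
  have hX0 : (0 : ℝ) < X := by exact_mod_cast hX1
  have hXN : X ≤ X ^ k := Nat.le_self_pow (by omega) X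
  have hL0 : 0 < Real.log (X : ℝ) := by linarith
  have hlog : Real.log (X : ℝ) ≤ Real.log ((X ^ k : ℕ) : ℝ) := Real.log_le_log hX0 (by exact_mod_cast hXN)
  have hcoeff : f.coeff k = f.leadingCoeff := by rw [← hf]; rfl
  have hne : f.coeff k ≠ 0 := by
    rw [hcoeff]
    intro h0
    rw [Polynomial.leadingCoeff_eq_zero] at h0
    rw [h0, Polynomial.natDegree_zero] at hf
    omega
  have hen := hE X hX1 f hf.le hne
  have h3 := h1 (X ^ k) (by omega) (Fin X) (fun i => f.eval ((i : ℕ) : ℤ)) (fun i => by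
    push_cast
    exact hv i i.2) (by
    rw [Fintype.card_fin]
    refine hen.trans (mul_le_mul_of_nonneg_right ?_ (by positivity))
    rw [hcoeff]
    have hK0 : 0 ≤ K := by linarith
    calc 2 * (K * |(f.leadingCoeff : ℝ)|) ^ 2 ≤ 2 * (K * Real.log X ^ C) ^ 2 := by gcongr
      _ = (2 * K ^ 2) * Real.log X ^ (2 * C) := by rw [mul_pow, ← pow_mul, mul_comm C 2]; ring
      _ ≤ Real.log X * Real.log X ^ (2 * C) := mul_le_mul_of_nonneg_right hL (by positivity)
      _ = Real.log X ^ (2 * C + 1) := by rw [pow_succ]; ring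
      _ ≤ _ := pow_le_pow_left₀ hL0.le hlog _)
  rw [Fintype.card_fin] at h3
  have h4 : (exceptions ε A X f : ℝ) ≤ ((univ.filter (fun i : Fin X => 0 < f.eval ((i : ℕ) : ℤ) ∧
      ¬ Pool.Agent.R501.LP.LpG ε A (f.eval ((i : ℕ) : ℤ)).toNat)).card : ℝ) := by
    rw [Nat.cast_le]
    unfold exceptions
    apply card_le_card_of_injOn (fun n : ℕ => (⟨n % X, Nat.mod_lt _ hX1⟩ : Fin X))
    · intro n hn
      rw [mem_coe, mem_filter, mem_range] at hn
      rw [mem_coe, mem_filter]
      simp only [Nat.mod_eq_of_lt hn.1]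
      refine ⟨mem_univ _, hn.2.1, ?_⟩
      have h5 := hn.2.2
      rw [good_iff] at h5
      exact h5
    · intro n hn n' hn' he
      rw [mem_coe, mem_filter, mem_range] at hn hn'
      simp only [Nat.mod_eq_of_lt hn.1, Nat.mod_eq_of_lt hn'.1, Fin.mk.injEq] at he
      exact he
  refine h4.trans (h3.trans ?_)
  apply div_le_div_of_nonneg_left hX0.le (by positivity)
  exact pow_le_pow_left₀ hL0.le hlog _

end Pool.Agent.Results.MP_42948a_nt.UniformPolynomialModuli
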